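import Mathlib
import Pool.Agent.Q98.GW7
import Pool.Agent.Q98.GW8

set_option autoImplicit false

open MeasureTheory Filter Topology

open scoped ENNReal

namespace Pool.Agent.Results.MP_30e1ee_an.WMPFails

section Defs

variable {𝕜 E F : Type*} [RCLike 𝕜] [NormedAddCommGroup E] [NormedSpace 𝕜 E]
  [NormedAddCommGroup F] [NormedSpace 𝕜 F]

/-- The operator `T` attains its norm: `‖T x‖ = ‖T‖` for some unit vector `x`. -/
def AttainsNorm (T : E →L[𝕜] F) : Prop := ∃ x : E, ‖x‖ = 1 ∧ ‖T x‖ = ‖T‖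

/-- `x` is a maximizing sequence for `T`: unit vectors `x n` with `‖T (x n)‖ → ‖T‖`. -/
def IsMaximizingSeq (T : E →L[𝕜] F) (x : ℕ → E) : Prop :=
  (∀ n, ‖x n‖ = 1) ∧ Tendsto (fun n => ‖T (x n)‖) atTop (𝓝 ‖T‖)

variable (𝕜) in
/-- The sequence `x` is weakly null. -/
def IsWeaklyNull (x : ℕ → E) : Prop := ∀ φ : E →L[𝕜] 𝕜, Tendsto (fun n => φ (x n)) atTop (𝓝 0)

variable (𝕜 E F) in
/-- The pair `(E, F)` has the weak maximizing property: every bounded operator `T : E → F` that has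
a maximizing sequence which is not weakly null attains its norm. -/
def HasWMP : Prop :=
  ∀ T : E →L[𝕜] F, (∃ x : ℕ → E, IsMaximizingSeq T x ∧ ¬ IsWeaklyNull 𝕜 x) → AttainsNorm T

end Defs

/-- The space `L_r[0,1]` over `𝕜`, for the Lebesgue measure. -/
abbrev L (𝕜 : Type*) [RCLike 𝕜] (r : ℝ≥0∞) : Type _ := Lp 𝕜 r (volume : Measure unitInterval)

section Proof

variable {𝕜 : Type*} [RCLike 𝕜] {r : ℝ≥0∞} [Fact (1 ≤ r)]

/-- real part -/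
noncomputable def reL : L 𝕜 r →L[ℝ] L ℝ r := RCLike.reCLM.compLpL r volume
/-- imaginary part -/
noncomputable def imL : L 𝕜 r →L[ℝ] L ℝ r := RCLike.imCLM.compLpL r volume
/-- inclusion of the real functions -/
noncomputable def ofL : L ℝ r →L[ℝ] L 𝕜 r := RCLike.ofRealCLM.compLpL r volume

lemma reL_ae (f : L 𝕜 r) : ∀ᵐ t, reL f t = RCLike.re (f t) :=
  ContinuousLinearMap.coeFn_compLpL _ _
lemma imL_ae (f : L 𝕜 r) : ∀ᵐ t, imL f t = RCLike.im (f t) :=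
  ContinuousLinearMap.coeFn_compLpL _ _
lemma ofL_ae (f : L ℝ r) : ∀ᵐ t, (ofL f : L 𝕜 r) t = ((f t : ℝ) : 𝕜) :=
  ContinuousLinearMap.coeFn_compLpL _ _

lemma norm_ofL (f : L ℝ r) : ‖(ofL f : L 𝕜 r)‖ = ‖f‖ := by
  apply le_antisymm
  · apply Lp.norm_le_norm_of_ae_le
    filter_upwards [ofL_ae (𝕜 := 𝕜) f] with t ht
    rw [ht, RCLike.norm_ofReal, Real.norm_eq_abs]
  · apply Lp.norm_le_norm_of_ae_le
    filter_upwards [ofL_ae (𝕜 := 𝕜) f] with t ht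
    rw [ht, RCLike.norm_ofReal, Real.norm_eq_abs]

lemma reL_ofL (f : L ℝ r) : reL (ofL f : L 𝕜 r) = f := by
  apply Lp.ext
  filter_upwards [reL_ae (ofL f : L 𝕜 r), ofL_ae (𝕜 := 𝕜) f] with t h1 h2
  rw [h1, h2, RCLike.ofReal_re]

lemma imL_ofL (f : L ℝ r) : imL (ofL f : L 𝕜 r) = 0 := by
  apply Lp.ext
  filter_upwards [imL_ae (ofL f : L 𝕜 r), ofL_ae (𝕜 := 𝕜) f,
    Lp.coeFn_zero ℝ r (volume : Measure unitInterval)] with t h1 h2 h3
  rw [h1, h2, h3, RCLike.ofReal_im]; rfl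

lemma reL_smul (c : 𝕜) (f : L 𝕜 r) :
    reL (c • f) = RCLike.re c • reL f - RCLike.im c • imL f := by
  apply Lp.ext
  filter_upwards [reL_ae (c • f), reL_ae f, imL_ae f, Lp.coeFn_smul c f,
    Lp.coeFn_sub (RCLike.re c • reL f) (RCLike.im c • imL f),
    Lp.coeFn_smul (RCLike.re c) (reL f), Lp.coeFn_smul (RCLike.im c) (imL f)]
    with t h1 h2 h3 h4 h5 h6 h7
  rw [h1, h4, h5, Pi.sub_apply, h6, h7, Pi.smul_apply, Pi.smul_apply, Pi.smul_apply, h2, h3,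
    smul_eq_mul, smul_eq_mul, smul_eq_mul, RCLike.mul_re]

lemma imL_smul (c : 𝕜) (f : L 𝕜 r) :
    imL (c • f) = RCLike.re c • imL f + RCLike.im c • reL f := by
  apply Lp.ext
  filter_upwards [imL_ae (c • f), reL_ae f, imL_ae f, Lp.coeFn_smul c f,
    Lp.coeFn_add (RCLike.re c • imL f) (RCLike.im c • reL f),
    Lp.coeFn_smul (RCLike.re c) (imL f), Lp.coeFn_smul (RCLike.im c) (reL f)]
    with t h1 h2 h3 h4 h5 h6 h7
  rw [h1, h4, h5, Pi.add_apply, h6, h7, Pi.smul_apply, Pi.smul_apply, Pi.smul_apply, h2, h3,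
    smul_eq_mul, smul_eq_mul, smul_eq_mul, RCLike.mul_im]

/-- The function with given real and imaginary parts. -/
noncomputable def mk (u v : L ℝ r) : L 𝕜 r := ofL u + (RCLike.I : 𝕜) • ofL v

lemma mk_ae (u v : L ℝ r) :
    ∀ᵐ t, (mk u v : L 𝕜 r) t = ((u t : ℝ) : 𝕜) + (RCLike.I : 𝕜) * ((v t : ℝ) : 𝕜) := by
  filter_upwards [Lp.coeFn_add (ofL u : L 𝕜 r) ((RCLike.I : 𝕜) • ofL v),
    Lp.coeFn_smul (RCLike.I : 𝕜) (ofL v : L 𝕜 r), ofL_ae (𝕜 := 𝕜) u, ofL_ae (𝕜 := 𝕜) v]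
    with t h1 h2 h3 h4
  rw [mk, h1, Pi.add_apply, h2, Pi.smul_apply, h3, h4, smul_eq_mul]

lemma mk_norm_ae (u v : L ℝ r) : ∀ᵐ t, ‖(mk u v : L 𝕜 r) t‖ ^ 2 ≤ (u t) ^ 2 + (v t) ^ 2 := by
  filter_upwards [mk_ae (𝕜 := 𝕜) u v] with t ht
  rw [ht, RCLike.norm_sq_eq_def]
  rcases RCLike.I_eq_zero_or_im_I_eq_one (K := 𝕜) with h | h
  · simp [h]
    nlinarith [sq_nonneg (v t)]
  · simp [h]
    nlinarith [sq_nonneg (v t)]

lemma re_im_ae (f : L 𝕜 r) : ∀ᵐ t, (reL f t) ^ 2 + (imL f t) ^ 2 ≤ ‖f t‖ ^ 2 := by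
  filter_upwards [reL_ae f, imL_ae f] with t h1 h2
  rw [h1, h2, RCLike.norm_sq_eq_def]
  nlinarith

lemma mk_add (u v u' v' : L ℝ r) : (mk (u + u') (v + v') : L 𝕜 r) = mk u v + mk u' v' := by
  unfold mk
  rw [map_add, map_add, smul_add]; abel

lemma mk_smul (c : 𝕜) (u v : L ℝ r) :
    (mk (RCLike.re c • u - RCLike.im c • v) (RCLike.re c • v + RCLike.im c • u) : L 𝕜 r)
      = c • mk u v := by
  apply Lp.ext
  filter_upwards [mk_ae (𝕜 := 𝕜) (RCLike.re c • u - RCLike.im c • v)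
      (RCLike.re c • v + RCLike.im c • u), mk_ae (𝕜 := 𝕜) u v, Lp.coeFn_smul c (mk u v : L 𝕜 r),
    Lp.coeFn_sub (RCLike.re c • u) (RCLike.im c • v),
    Lp.coeFn_add (RCLike.re c • v) (RCLike.im c • u),
    Lp.coeFn_smul (RCLike.re c) u, Lp.coeFn_smul (RCLike.im c) v,
    Lp.coeFn_smul (RCLike.re c) v, Lp.coeFn_smul (RCLike.im c) u]
    with t h1 h2 h3 h4 h5 h6 h7 h8 h9
  rw [h1, h3, h4, h5, Pi.sub_apply, Pi.add_apply, h6, h7, h8, h9, Pi.smul_apply, Pi.smul_apply,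
    Pi.smul_apply, Pi.smul_apply, Pi.smul_apply, h2, smul_eq_mul, smul_eq_mul, smul_eq_mul,
    smul_eq_mul, smul_eq_mul]
  conv_rhs => rw [← RCLike.re_add_im c]
  push_cast
  rcases RCLike.I_eq_zero_or_im_I_eq_one (K := 𝕜) with h | h
  · have h0 : RCLike.im c = 0 := RCLike.im_eq_zero h c
    simp [h, h0]
  · have hI : (RCLike.I : 𝕜) * RCLike.I = -1 := by
      rcases RCLike.I_mul_I (K := 𝕜) with h' | h'
      · rw [h'] at h; simp at h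
      · exact h'
    linear_combination (-(RCLike.im c : 𝕜) * ((v t : ℝ) : 𝕜)) * hI

/-- A norm attaining-type selection of unit vectors. -/
lemma exists_unit_op {E F : Type*} [NormedAddCommGroup E] [NormedSpace ℝ E]
    [NormedAddCommGroup F] [NormedSpace ℝ F] (T : E →L[ℝ] F) (hT : 0 < ‖T‖) {ε : ℝ} (hε : 0 < ε) :
    ∃ x : E, ‖x‖ = 1 ∧ ‖T‖ - ε ≤ ‖T x‖ := by
  set s : ℝ := max (‖T‖ - ε) (‖T‖ / 2) with hs
  have hs1 : s < ‖T‖ := max_lt (by linarith) (by linarith)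
  have hs0 : 0 < s := lt_of_lt_of_le (by positivity) (le_max_right _ _)
  obtain ⟨x, hx1, hx2⟩ := ContinuousLinearMap.exists_lt_apply_of_lt_opNorm T hs1
  have hTx : 0 < ‖T x‖ := hs0.trans hx2
  have hx0 : x ≠ 0 := by
    rintro rfl
    rw [map_zero, norm_zero] at hTx
    exact lt_irrefl _ hTx
  have hxp : 0 < ‖x‖ := norm_pos_iff.2 hx0
  refine ⟨‖x‖⁻¹ • x, ?_, ?_⟩
  · rw [norm_smul, norm_inv, norm_norm, inv_mul_cancel₀ hxp.ne']
  · rw [map_smul, norm_smul, norm_inv, norm_norm]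
    have h2 : 1 ≤ ‖x‖⁻¹ := (one_le_inv₀ hxp).2 hx1.le
    calc ‖T‖ - ε ≤ s := le_max_left _ _
      _ ≤ 1 * ‖T x‖ := by rw [one_mul]; exact hx2.le
      _ ≤ ‖x‖⁻¹ * ‖T x‖ := by gcongr

theorem main {p q : ℝ} (hp : 1 < p) (hp2 : p ≤ 2) (hq2 : 2 ≤ q) (hne : ¬ (p = 2 ∧ q = 2))
    [Fact (1 ≤ ENNReal.ofReal p)] [Fact (1 ≤ ENNReal.ofReal q)] :
    ¬ HasWMP 𝕜 (L 𝕜 (ENNReal.ofReal p)) (L 𝕜 (ENNReal.ofReal q)) := by
  intro hW
  have hpc := Real.HolderConjugate.conjExponent hp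
  have hqc := Real.HolderConjugate.conjExponent (show 1 < q by linarith)
  obtain ⟨T, A0, hT1, hT2, hT3⟩ := Q98.GW.real_case hpc hqc hp2 hq2 hne
  -- `T` is not zero
  have hTpos : 0 < ‖T‖ := by
    rcases (norm_nonneg T).eq_or_lt with h | h
    · exfalso
      apply hT1
      have h1 : ‖Q98.GW.one p‖ = 1 := by
        rcases Q98.GW.norm_one' p with h1 | h1
        · exact h1
        · linarith
      refine ⟨Q98.GW.one p, h1, ?_⟩
      have : T = 0 := norm_eq_zero.1 h.symm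
      rw [this]; simp
    · exact h
  -- the complexification
  let TK0 : L 𝕜 (ENNReal.ofReal p) →ₗ[𝕜] L 𝕜 (ENNReal.ofReal q) :=
    { toFun := fun f => mk (T (reL f)) (T (imL f))
      map_add' := fun f f' => by
        rw [map_add, map_add, map_add, map_add, mk_add]
      map_smul' := fun c f => by
        rw [reL_smul, imL_smul, map_sub, map_add, map_smul, map_smul, map_smul, map_smul, mk_smul]
        rfl }
  have hTK0 : ∀ f, ‖TK0 f‖ ^ 2 ≤ ‖T (reL f)‖ ^ 2 + ‖T (imL f)‖ ^ 2 := fun f =>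
    Q98.GW.norm_sq_le hq2 _ _ _ (mk_norm_ae _ _)
  have hfge : ∀ f : L 𝕜 (ENNReal.ofReal p), ‖reL f‖ ^ 2 + ‖imL f‖ ^ 2 ≤ ‖f‖ ^ 2 := fun f =>
    Q98.GW.norm_sq_ge hp.le hp2 _ _ _ (re_im_ae f)
  have hTsq : ∀ u, ‖T u‖ ^ 2 ≤ ‖T‖ ^ 2 * ‖u‖ ^ 2 := by
    intro u
    rw [← mul_pow]
    exact pow_le_pow_left₀ (norm_nonneg _) (T.le_opNorm u) 2
  have hTK0le : ∀ f, ‖TK0 f‖ ≤ ‖T‖ * ‖f‖ := by
    intro f
    rw [← pow_le_pow_iff_left₀ (norm_nonneg _) (by positivity) two_ne_zero, mul_pow]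
    have h1 := hTK0 f
    have h2 := hTsq (reL f)
    have h3 := hTsq (imL f)
    have h4 := mul_le_mul_of_nonneg_left (hfge f) (sq_nonneg ‖T‖)
    nlinarith
  let TK : L 𝕜 (ENNReal.ofReal p) →L[𝕜] L 𝕜 (ENNReal.ofReal q) := TK0.mkContinuous ‖T‖ hTK0le
  have hTK : ∀ f, TK f = mk (T (reL f)) (T (imL f)) := fun f => rfl
  have hTKle : ‖TK‖ ≤ ‖T‖ := LinearMap.mkContinuous_norm_le _ (norm_nonneg _) _
  have hTKof : ∀ u : L ℝ (ENNReal.ofReal p), ‖TK (ofL u)‖ = ‖T u‖ := by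
    intro u
    rw [hTK, reL_ofL, imL_ofL, map_zero, mk, map_zero, smul_zero, add_zero, norm_ofL]
  have hTKge : ‖T‖ ≤ ‖TK‖ := by
    refine ContinuousLinearMap.opNorm_le_bound _ (norm_nonneg _) fun u => ?_
    rw [← hTKof, ← norm_ofL (𝕜 := 𝕜) u]
    exact TK.le_opNorm _
  have hTKn : ‖TK‖ = ‖T‖ := le_antisymm hTKle hTKge
  -- the maximizing sequence
  obtain ⟨x, hx⟩ : ∃ x : ℕ → L ℝ (ENNReal.ofReal p), ∀ n, ‖x n‖ = 1 ∧
      ‖T‖ - 1 / ((n : ℝ) + 1) ≤ ‖T (x n)‖ :=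
    ⟨fun n => (exists_unit_op T hTpos (ε := 1 / ((n : ℝ) + 1)) (by positivity)).choose,
      fun n => (exists_unit_op T hTpos (ε := 1 / ((n : ℝ) + 1)) (by positivity)).choose_spec⟩
  have hxlim : Tendsto (fun n => ‖T (x n)‖) atTop (𝓝 ‖T‖) := by
    have h1 : Tendsto (fun n : ℕ => ‖T‖ - 1 / ((n : ℝ) + 1)) atTop (𝓝 ‖T‖) := by
      have := (tendsto_one_div_add_atTop_nhds_zero_nat (𝕜 := ℝ)).const_sub ‖T‖
      rwa [sub_zero] at this
    refine tendsto_of_tendsto_of_tendsto_of_le_of_le h1 tendsto_const_nhds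
      (fun n => (hx n).2) (fun n => ?_)
    have := T.le_opNorm (x n)
    rwa [(hx n).1, mul_one] at this
  have hmax : IsMaximizingSeq TK (fun n => ofL (x n)) := by
    refine ⟨fun n => by rw [norm_ofL, (hx n).1], ?_⟩
    rw [hTKn]
    exact hxlim.congr fun n => (hTKof (x n)).symm
  have hnotnull : ¬ IsWeaklyNull 𝕜 (fun n => (ofL (x n) : L 𝕜 (ENNReal.ofReal p))) := by
    intro hnull
    apply hT3 x (fun n => (hx n).1) hxlim
    have hi : (ENNReal.ofReal p).HolderConjugate (ENNReal.ofReal (Real.conjExponent p)) :=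
      hpc.ennrealOfReal
    have hf : Fact (1 ≤ ENNReal.ofReal (Real.conjExponent p)) :=
      ⟨by simpa using hpc.symm.lt.le⟩
    let one' : L 𝕜 (ENNReal.ofReal (Real.conjExponent p)) := (memLp_const (1 : 𝕜)).toLp
    have h1 := hnull (((ContinuousLinearMap.mul 𝕜 𝕜).lpPairing volume (ENNReal.ofReal p)
      (ENNReal.ofReal (Real.conjExponent p))).flip one')
    have h2 : ∀ n, ((ContinuousLinearMap.mul 𝕜 𝕜).lpPairing volume (ENNReal.ofReal p)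
        (ENNReal.ofReal (Real.conjExponent p))).flip one' (ofL (x n)) = ((A0 (x n) : ℝ) : 𝕜) := by
      intro n
      rw [ContinuousLinearMap.flip_apply, ContinuousLinearMap.lpPairing_eq_integral, hT2,
        ← integral_ofReal]
      apply integral_congr_ae
      filter_upwards [ofL_ae (𝕜 := 𝕜) (x n), (memLp_const (μ := (volume : Measure unitInterval))
        (p := ENNReal.ofReal (Real.conjExponent p)) (1 : 𝕜)).coeFn_toLp] with t ht1 ht2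
      rw [ht1, ht2, ContinuousLinearMap.mul_apply', mul_one]
    simp only [h2] at h1
    have h3 := (RCLike.continuous_re (K := 𝕜)).tendsto 0
    rw [map_zero] at h3
    have h4 := h3.comp h1
    refine h4.congr fun n => ?_
    show RCLike.re ((A0 (x n) : ℝ) : 𝕜) = _
    rw [RCLike.ofReal_re]
  obtain ⟨f, hf1, hf2⟩ := hW TK ⟨_, hmax, hnotnull⟩
  -- the real or the imaginary part of `f` attains the norm
  rw [hTKn] at hf2
  have h1 : ‖T‖ ^ 2 ≤ ‖T (reL f)‖ ^ 2 + ‖T (imL f)‖ ^ 2 := by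
    rw [← hf2]; exact hTK0 f
  have h2 := hTsq (reL f)
  have h3 := hTsq (imL f)
  have h4 := hfge f
  rw [hf1, one_pow] at h4
  have hT2p : 0 < ‖T‖ ^ 2 := by positivity
  have h5 : ‖T‖ ^ 2 * (‖reL f‖ ^ 2 + ‖imL f‖ ^ 2) ≤ ‖T‖ ^ 2 * 1 :=
    mul_le_mul_of_nonneg_left h4 hT2p.le
  have h6 : ‖T (reL f)‖ ^ 2 = ‖T‖ ^ 2 * ‖reL f‖ ^ 2 := by linarith
  have h7 : ‖T (imL f)‖ ^ 2 = ‖T‖ ^ 2 * ‖imL f‖ ^ 2 := by linarith
  have h8 : ∀ u : L ℝ (ENNReal.ofReal p), ‖T u‖ ^ 2 = ‖T‖ ^ 2 * ‖u‖ ^ 2 → u = 0 := by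
    intro u hu
    by_contra hu0
    apply hT1
    have hup : 0 < ‖u‖ := norm_pos_iff.2 hu0
    refine ⟨‖u‖⁻¹ • u, ?_, ?_⟩
    · rw [norm_smul, norm_inv, norm_norm, inv_mul_cancel₀ hup.ne']
    · rw [map_smul, norm_smul, norm_inv, norm_norm]
      have : ‖T u‖ = ‖T‖ * ‖u‖ := by
        rw [← pow_left_inj₀ (norm_nonneg _) (by positivity) two_ne_zero, hu, mul_pow]
      rw [this]
      field_simp
  have h9 := h8 _ h6
  have h10 := h8 _ h7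
  rw [h9, h10] at h1
  simp at h1
  rw [h1] at hTpos
  simp at hTpos

end Proof

/-- **Theorem.** Let `𝕜` be `ℝ` or `ℂ` and let `1 < p ≤ 2 ≤ q < ∞`, not both equal to `2`. Then the
pair `(L_p[0,1], L_q[0,1])` of spaces over `𝕜` fails the weak maximizing property. -/
theorem result {𝕜 : Type*} [RCLike 𝕜] (p q : ℝ≥0∞) [Fact (1 ≤ p)] [Fact (1 ≤ q)]
    (hp : 1 < p) (hp2 : p ≤ 2) (hq2 : 2 ≤ q) (hq : q ≠ ∞) (hne : ¬ (p = 2 ∧ q = 2)) :
    ¬ HasWMP 𝕜 (L 𝕜 p) (L 𝕜 q) := by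
  have hpt : p ≠ ∞ := ne_top_of_le_ne_top (by simp) hp2
  obtain ⟨p', hp'0, rfl⟩ : ∃ p' : ℝ, 0 ≤ p' ∧ p = ENNReal.ofReal p' :=
    ⟨p.toReal, ENNReal.toReal_nonneg, (ENNReal.ofReal_toReal hpt).symm⟩
  obtain ⟨q', hq'0, rfl⟩ : ∃ q' : ℝ, 0 ≤ q' ∧ q = ENNReal.ofReal q' :=
    ⟨q.toReal, ENNReal.toReal_nonneg, (ENNReal.ofReal_toReal hq).symm⟩
  have e2 : (2 : ℝ≥0∞) = ENNReal.ofReal 2 := by simp
  have e1 : (1 : ℝ≥0∞) = ENNReal.ofReal 1 := by simp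
  refine main ?_ ?_ ?_ ?_
  · rw [e1, ENNReal.ofReal_lt_ofReal_iff_of_nonneg zero_le_one] at hp
    exact hp
  · rw [e2, ENNReal.ofReal_le_ofReal_iff (by norm_num)] at hp2
    exact hp2
  · rw [e2, ENNReal.ofReal_le_ofReal_iff hq'0] at hq2
    exact hq2
  · rintro ⟨rfl, rfl⟩
    exact hne ⟨e2.symm, e2.symm⟩

end Pool.Agent.Results.MP_30e1ee_an.WMPFails
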